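import Mathlib
import Pool.Agent.Helper11_PGL.StmtG

/-!
# SQ: reducedness gives coprimality
-/

open PGH
open scoped TensorProduct

universe u

namespace PGL

/-- `∑ y j ⊗ f j ≠ 0` when the `f j` are linearly independent and `y ≠ 0` -/
theorem yT_ne_zero_of_linearIndependent {k V R : Type*} [Field k] [Field V] [Algebra k V]
    [Field R] [Algebra k R] {n : ℕ} (f : Fin (n + 1) → R) (y : Fin (n + 1) → V)
    (hf : LinearIndependent k f) (hy : y ≠ 0) : yT k y f ≠ 0 := by
  intro h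
  apply hy
  obtain ⟨g, hg⟩ := (Finsupp.linearCombination k f).exists_leftInverse_of_injective
    (LinearMap.ker_eq_bot.2 hf)
  ext j
  let Φ : V ⊗[k] R →ₗ[k] V := TensorProduct.lift
    ((LinearMap.lsmul k V).flip.compl₂ ((Finsupp.lapply j).comp g))
  have h1 : Φ (yT k y f) = y j := by
    rw [yT, map_sum]
    have h2 : ∀ i, Φ (y i ⊗ₜ[k] f i) = (Finsupp.single i (1 : k)) j • y i := by
      intro i
      have h3 : g (f i) = Finsupp.single i 1 := by
        have h4 := LinearMap.congr_fun hg (Finsupp.single i 1)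
        simpa using h4
      change (g (f i)) j • y i = _
      rw [h3]
    rw [Finset.sum_congr rfl (fun i _ => h2 i), Finset.sum_eq_single j]
    · simp
    · intro i _ hij
      simp [Finsupp.single_apply, hij]
    · simp
  rw [← h1, h, map_zero]
  rfl

theorem sqStmt (hA : AlgKStmt.{u}) (hB : ValBStmt.{u}) (hT : SqTStmt.{u}) : SqStmt.{u} := by
  intro k V R _ _ _ _ _ _ _ _ W Q n f y lam p del hWc hW hf hp hlam hw hy hdel
  by_contra hco
  set A := yT k y f with hAdef
  set C := yT k y (fun s => del (f s)) with hCdef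
  have hne : Ideal.span ({A, C} : Set (V ⊗[k] R)) ≠ ⊤ := by
    intro h
    apply hco
    rw [Ideal.eq_top_iff_one, Ideal.mem_span_pair] at h
    exact h
  obtain ⟨mm, hmm, hle⟩ := Ideal.exists_le_maximal _ hne
  have hAm : A ∈ mm := hle (Ideal.subset_span (by simp))
  have hCm : C ∈ mm := hle (Ideal.subset_span (by simp))
  letI : Field ((V ⊗[k] R) ⧸ mm) := Ideal.Quotient.field mm
  let ι : R →ₐ[k] ((V ⊗[k] R) ⧸ mm) :=
    (Ideal.Quotient.mkₐ k mm).comp Algebra.TensorProduct.includeRight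
  have hlift : Algebra.TensorProduct.lift (IsScalarTower.toAlgHom k V ((V ⊗[k] R) ⧸ mm)) ι
      (fun _ _ => Commute.all _ _) = Ideal.Quotient.mkₐ k mm := by
    apply Algebra.TensorProduct.ext'
    intro a b
    rw [Algebra.TensorProduct.lift_tmul]
    change (Ideal.Quotient.mk mm (a ⊗ₜ[k] 1)) * (Ideal.Quotient.mk mm (1 ⊗ₜ[k] b)) =
      Ideal.Quotient.mk mm (a ⊗ₜ[k] b)
    rw [← map_mul, Algebra.TensorProduct.tmul_mul_tmul, mul_one, one_mul]
  have hval : ∀ g : Fin (n + 1) → R, yT k y g ∈ mm →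
      ∑ j, algebraMap V ((V ⊗[k] R) ⧸ mm) (y j) * ι (g j) = 0 := by
    intro g hg
    have h1 : (Ideal.Quotient.mkₐ k mm) (yT k y g) = 0 := by
      simpa using Ideal.Quotient.eq_zero_iff_mem.2 hg
    rw [← hlift, yT, map_sum] at h1
    rw [← h1]
    refine Finset.sum_congr rfl fun j _ => ?_
    rw [Algebra.TensorProduct.lift_tmul]
    rfl
  have halg := hA k V R ((V ⊗[k] R) ⧸ mm) ι A
    (yT_ne_zero_of_linearIndependent f y hf hy) (by
      rw [hlift]
      simpa using Ideal.Quotient.eq_zero_iff_mem.2 hAm)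
  obtain ⟨w, hwW, B, hB1, hB2, hB3, hB4⟩ := hB k V R ((V ⊗[k] R) ⧸ mm) W ι Q hWc hW halg
  exact hT k V R ((V ⊗[k] R) ⧸ mm) w ι Q n f y lam p del B (hWc w hwW) hB1 hB2 hB3 hB4 hf hp hlam
    (hw w hwW) hy hdel (hval f hAm) (hval _ hCm)

end PGL
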